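import Pool.Agent.TH697.CW6.Sem

set_option autoImplicit false

/-!
# Boundary types for perfect matching double covers of r-regular graphs: the checker

Style of Pool.Agent.TH697.BF6.Chk, for degree r at most 7 and 2r perfect matchings (the colours
below 2r). A boundary type records the number of ports of a vertex set (k, at most 8), its parity
(par), some small cuts inside it (fs: port mask of a part, parity of the part, bound for the number
of inner edges), and a list of n boundary states. A state gives a pair of distinct colours to every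
port (8 bits).
-/

namespace Pool.Agent.TH222.RG

open Pool.Agent.TH697.CW6

structure BT where
  k : ℕ
  par : Bool
  n : ℕ
  st : ℕ
  fs : List (ℕ × Bool × ℕ)

structure Ent where
  lm : ℕ
  ti : ℕ
  c : ℕ
  ws : ℕ

/-- packed table of popcounts of the masks below 256 -/
def PC8 : ℕ := 0x8776766576656554766565546554544376656554655454436554544354434332766565546554544365545443544343326554544354434332544343324332322176656554655454436554544354434332655454435443433254434332433232216554544354434332544343324332322154434332433232214332322132212110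

def pc8 (m : ℕ) : ℕ := Nat.land (Nat.shiftRight PC8 (Nat.mul 4 m)) 15

/-- code of the port i in the state j -/
def pcode (st j i : ℕ) : ℕ :=
  Nat.land (Nat.shiftRight st (Nat.add (Nat.mul 64 j) (Nat.mul 8 i))) 255

/-- the two colours of a code -/
def pmask (x : ℕ) : ℕ :=
  Nat.lor (Nat.shiftLeft 1 (Nat.land x 15)) (Nat.shiftLeft 1 (Nat.shiftRight x 4))

/-- the colour map with the packed values q -/
def cm (q a : ℕ) : ℕ := Nat.land (Nat.shiftRight q (Nat.mul 4 a)) 15

/-- the images of the two colours of a code -/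
def qmask (q x : ℕ) : ℕ :=
  Nat.lor (Nat.shiftLeft 1 (cm q (Nat.land x 15))) (Nat.shiftLeft 1 (cm q (Nat.shiftRight x 4)))

noncomputable def orB (n : ℕ) (f : ℕ → ℕ) : ℕ := Nat.rec 0 (fun j ih => Nat.lor (f j) ih) n

def xorB (a b : Bool) : Bool := cond a (cond b false true) b

noncomputable def stateOK (r k lm st0 src q k' st' j c : ℕ) : Bool :=
  allB k' (fun i => cond (Nat.blt (dig c i) 8)
      (Nat.beq (qmask q (pcode st' j i)) (pmask (pcode st0 src (dig c i)))) true) &&
    (Nat.beq (Nat.lor (orB k fun p => cond (tb lm p) (pmask (pcode st0 src p)) 0)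
        (orB k' fun i => cond (Nat.blt (dig c i) 8) 0 (qmask q (pcode st' j i))))
        (full (Nat.mul 2 r)) &&
      (Nat.beq (orB (Nat.mul 2 r) fun a => Nat.shiftLeft 1 (cm q a)) (full (Nat.mul 2 r)) &&
        allB (Nat.mul 2 r) fun a => Nat.blt (cm q a) (Nat.mul 2 r)))

noncomputable def statesB (r : ℕ) (t : BT) (lm n' st' k' c ws : ℕ) : Bool :=
  allB n' fun j =>
    let w := Nat.land (Nat.shiftRight ws (Nat.mul 64 j)) 18446744073709551615
    cond (Nat.blt (Nat.shiftRight w 48) t.n)
      (stateOK r t.k lm t.st (Nat.shiftRight w 48) (Nat.land w 281474976710655) k' st' j c) false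

/-- the ports of the new set: old ports outside lm, and r - |lm| new ones (places 8, 9, ...) -/
noncomputable def portsB (r k lm k' c : ℕ) : Bool :=
  let M := Nat.lor (Nat.xor (full k) lm) (Nat.shiftLeft (full (Nat.sub r (pc8 lm))) 8)
  allB k' (fun i => tb M (dig c i)) &&
    (allB 16 (fun x => cond (tb M x) (anyB k' fun i => Nat.beq (dig c i) x) true) &&
      allB k' (fun i => allB i fun i' => !(Nat.beq (dig c i') (dig c i))))

/-- the fact (A, b, d) excludes that v is joined to the ports lm -/
def exF (r lm A : ℕ) (b : Bool) (d : ℕ) : Bool :=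
  cond b false (Nat.blt (Nat.add (Nat.add d (pc8 (rem A lm)))
    (Nat.add (pc8 (rem lm A)) (Nat.sub r (pc8 lm)))) r)

def exclB (r : ℕ) (t : BT) (lm : ℕ) : Bool :=
  exF r lm (full t.k) t.par 0 || t.fs.any fun P =>
    exF r lm P.1 P.2.1 P.2.2 || exF r lm (Nat.xor (full t.k) P.1) (xorB P.2.1 t.par) P.2.2

noncomputable def agreeB (k' c P M : ℕ) : Bool := allB k' fun i => !(xorB (tb P i) (tb M (dig c i)))

/-- the fact (A, b, d) on the old set gives the fact P on the new set -/
noncomputable def getF (r lm k' c : ℕ) (P : ℕ × Bool × ℕ) (A : ℕ) (b : Bool) (d : ℕ) : Bool :=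
  cond (xorB b P.2.1)
    (Nat.ble (Nat.add d (pc8 (rem lm A))) P.2.2 &&
      agreeB k' c P.1 (Nat.lor (rem A lm) (Nat.shiftLeft (full (Nat.sub r (pc8 lm))) 8)))
    (Nat.ble (Nat.add d (pc8 (Nat.land lm A))) P.2.2 && agreeB k' c P.1 (rem A lm))

noncomputable def factB (r : ℕ) (t : BT) (lm k' c : ℕ) (P : ℕ × Bool × ℕ) : Bool :=
  getF r lm k' c P 0 false 0 || (getF r lm k' c P (full t.k) t.par 0 || t.fs.any fun Q =>
    getF r lm k' c P Q.1 Q.2.1 Q.2.2 ||
      getF r lm k' c P (Nat.xor (full t.k) Q.1) (xorB Q.2.1 t.par) Q.2.2)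

noncomputable def chkB (r : ℕ) (tbl : ℕ → BT) (t : BT) (e : Ent) : Bool :=
  match tbl e.ti with
  | ⟨k', par', n', st', fs'⟩ =>
    Nat.beq (Nat.add k' (Nat.mul 2 (pc8 e.lm))) (Nat.add t.k r) &&
      (xorB par' t.par && (portsB r t.k e.lm k' e.c &&
        ((fs'.all fun P => factB r t e.lm k' e.c P) && statesB r t e.lm n' st' k' e.c e.ws)))

/-- the pattern lm is possible for a vertex of degree r and leaves at most w ports -/
def patB (r w k lm : ℕ) : Bool :=
  Nat.ble (pc8 lm) r && Nat.ble (Nat.add k r) (Nat.add w (Nat.mul 2 (pc8 lm)))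

/-- a type is well formed -/
noncomputable def okB (r : ℕ) (t : BT) : Bool :=
  Nat.ble t.k 8 && ((t.fs.all fun P => Nat.blt P.1 (Nat.shiftLeft 1 t.k)) &&
    allB t.n fun j => allB t.k fun i =>
      !(Nat.beq (Nat.land (pcode t.st j i) 15) (Nat.shiftRight (pcode t.st j i) 4)) &&
      (Nat.blt (Nat.land (pcode t.st j i) 15) (Nat.mul 2 r) &&
        Nat.blt (Nat.shiftRight (pcode t.st j i) 4) (Nat.mul 2 r)))

noncomputable def chkBT (r w : ℕ) (tbl : ℕ → BT) (t : BT) (es : List Ent) : Bool :=
  okB r t && (es.all (fun e => chkB r tbl t e) && allB (Nat.shiftLeft 1 t.k) fun lm =>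
    cond (patB r w t.k lm) (exclB r t lm || es.any fun e => Nat.beq e.lm lm) true)

end Pool.Agent.TH222.RG
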