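import Pool.Agent.TH222.RG.Step

set_option autoImplicit false
set_option linter.unusedVariables false
set_option linter.unusedSectionVars false
set_option linter.unusedSimpArgs false

open Finset
open Pool.Agent.Helper347.Sab (MGraph dg)

namespace Pool.Agent.TH222.RG

open Pool.Agent.TH697.CW6 (Tch cut tch_iff cut_iff mem_ends_iff tch_of_cut cut_insert cut_of_tch
  tch_insert allB anyB tb dig full rem allB_iff anyB_iff tb_eq full_testBit rem_testBit exists_mask)

variable {V E : Type} [Fintype V] [DecidableEq V] [Fintype E] [DecidableEq E]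

/-- An r-graph: r-regular, and every odd set of vertices is left by at least r edges (applied to
the whole vertex set this makes the number of vertices even when r is positive). -/
def IsRGraph (G : MGraph V E) (r : ℕ) : Prop :=
  (∀ v, dg G univ v = r) ∧ ∀ X : Finset V, Odd X.card → r ≤ (cut G X).card

/-- Cutwidth at most w: the vertices can be numbered injectively such that for every t at most w
edges join a vertex with number smaller than t to a vertex with number at least t. -/
def CutwidthLE (G : MGraph V E) (w : ℕ) : Prop :=
  ∃ f : V → ℕ, Function.Injective f ∧ ∀ t, (cut G (univ.filter fun v => f v < t)).card ≤ w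

/-- 2r perfect matchings such that every edge lies in exactly two of them -/
def HasDoubleCover (G : MGraph V E) (r : ℕ) : Prop :=
  ∃ M : Fin (2 * r) → Finset E, (∀ i v, dg G (M i) v = 1) ∧
    ∀ e, (univ.filter fun i => e ∈ M i).card = 2

theorem double_cover (G : MGraph V E) {r w : ℕ} (hr8 : r ≤ 8) (hG : IsRGraph G r)
    (hw : CutwidthLE G w) (tbl : ℕ → BT) (hok : ∀ i, ∃ es, chkBT r w tbl (tbl i) es = true)
    (hpos : ∀ i, 0 < (tbl i).n) (hk0 : (tbl 0).k = 0) (hp0 : (tbl 0).par = false)
    (hf0 : (tbl 0).fs = []) : HasDoubleCover G r := by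
  obtain ⟨hreg, hodd⟩ := hG
  rcases isEmpty_or_nonempty E with hE | hE
  · refine ⟨fun _ => ∅, fun i v => ?_, fun e => isEmptyElim e⟩
    exfalso
    have h1 := hreg v
    unfold dg at h1
    have h2 : (univ.filter fun e => v ∈ G.ends e) = (∅ : Finset E) := by
      rw [filter_eq_empty_iff]; intro e; exact isEmptyElim e
    rw [h2, card_empty] at h1
    have := i.isLt
    omega
  obtain ⟨e0⟩ := hE
  obtain ⟨f, hf, hcut⟩ := hw
  have main : ∀ T, ∃ i o, Inv G r (univ.filter fun v => f v < T) (tbl i) o := by
    intro T
    induction T with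
    | zero =>
      have h0 : (univ.filter fun v => f v < 0) = (∅ : Finset V) := by
        rw [filter_eq_empty_iff]; intro v _; omega
      rw [h0]
      refine ⟨0, fun _ => e0, ⟨⟨?_, ?_, ?_⟩, ?_, ?_, ?_⟩⟩
      · intro i hi; rw [hk0] at hi; omega
      · intro e he
        obtain ⟨w, hw, _⟩ := tch_of_cut he
        exact absurd hw (notMem_empty _)
      · intro i hi; rw [hk0] at hi; omega
      · rw [hp0]; simp
      · intro P hP; rw [hf0] at hP; exact absurd hP List.not_mem_nil
      · intro j hj
        refine ⟨fun _ => ∅, ⟨?_, ?_⟩, ?_⟩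
        · intro w hw; exact absurd hw (notMem_empty _)
        · rintro e ⟨w, hw, _⟩; exact absurd hw (notMem_empty _)
        · intro i hi; rw [hk0] at hi; omega
    | succ T ih =>
      obtain ⟨i, o, I⟩ := ih
      by_cases h : ∃ v, f v = T
      · obtain ⟨v, hv⟩ := h
        have h1 : (univ.filter fun w => f w < T + 1) = insert v (univ.filter fun w => f w < T) := by
          ext w
          rw [mem_insert, mem_filter, mem_filter]
          constructor
          · rintro ⟨_, h⟩
            rcases Nat.lt_succ_iff_lt_or_eq.1 h with h | h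
            · exact Or.inr ⟨mem_univ _, h⟩
            · left; apply hf; rw [h, hv]
          · rintro (h | ⟨_, h⟩)
            · subst h; exact ⟨mem_univ _, by omega⟩
            · exact ⟨mem_univ _, by omega⟩
        have hvX : v ∉ (univ.filter fun w => f w < T) := by
          rw [mem_filter, hv]; rintro ⟨_, h⟩; omega
        have hc := hcut (T + 1)
        rw [h1] at hc
        obtain ⟨i1, o1, I1⟩ := step hr8 e0 hreg hodd tbl hok I hvX hc
        refine ⟨i1, o1, ?_⟩
        rw [h1]
        exact I1
      · have h1 : (univ.filter fun w => f w < T + 1) = (univ.filter fun w => f w < T) := by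
          apply filter_congr
          intro w _
          constructor
          · intro h'
            rcases Nat.lt_succ_iff_lt_or_eq.1 h' with h' | h'
            · exact h'
            · exact absurd ⟨w, h'⟩ h
          · intro h'; omega
        rw [h1]
        exact ⟨i, o, I⟩
  obtain ⟨i, o, I⟩ := main (univ.sup f + 1)
  have hu : (univ.filter fun v => f v < univ.sup f + 1) = (univ : Finset V) := by
    rw [filter_eq_self]
    intro v hv
    exact Nat.lt_succ_of_le (le_sup (f := f) hv)
  rw [hu] at I
  obtain ⟨M, ⟨hM1, hM2⟩, _⟩ := I.sts 0 (hpos i)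
  refine ⟨fun c => M c, ?_, ?_⟩
  · intro c v
    exact hM1 v (mem_univ _) c c.isLt
  · intro e
    have ht : Tch G univ e := by
      obtain ⟨a, b, _, h⟩ := Pool.Agent.Helper347.Sab.exists_ends G e
      exact ⟨a, mem_univ _, by rw [h]; simp⟩
    refine Eq.trans ?_ (hM2 e ht)
    apply card_bij (fun (c : Fin (2 * r)) _ => (c : ℕ))
    · intro c hc
      rw [mem_filter] at hc
      rw [mem_filter, mem_range]
      exact ⟨c.isLt, hc.2⟩
    · intro c _ d _ h
      exact Fin.ext h
    · intro c hc
      rw [mem_filter, mem_range] at hc
      exact ⟨⟨c, hc.1⟩, by rw [mem_filter]; exact ⟨mem_univ _, hc.2⟩, rfl⟩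

end Pool.Agent.TH222.RG
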