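import Pool.Agent.TH697.CW6.Gr
import Pool.Agent.TH222.RG.Chk

set_option autoImplicit false
set_option linter.unusedVariables false
set_option linter.unusedSectionVars false

open Finset
open Pool.Agent.Helper347.Sab (MGraph dg)

namespace Pool.Agent.TH222.RG

open Pool.Agent.TH697.CW6 (Tch cut tch_iff cut_iff mem_ends_iff tch_of_cut cut_insert cut_of_tch
  tch_insert allB anyB tb dig full rem allB_iff anyB_iff tb_eq full_testBit rem_testBit exists_mask)

variable {V E : Type} [Fintype V] [DecidableEq V] [Fintype E] [DecidableEq E]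

/-! ## numbers -/

theorem lt256_of {m : ℕ} (h : ∀ i, 8 ≤ i → m.testBit i = false) : m < 256 := by
  by_contra hm
  push Not at hm
  obtain ⟨i, hi, hi2⟩ := Nat.exists_ge_and_testBit_of_ge_two_pow (n := 8) (x := m) (by simpa using hm)
  rw [h i hi] at hi2
  exact absurd hi2 (by simp)

theorem testBit_of_lt256 {m i : ℕ} (h : m < 256) (hi : 8 ≤ i) : m.testBit i = false := by
  apply Nat.testBit_lt_two_pow
  calc m < 256 := h
    _ = 2 ^ 8 := by norm_num
    _ ≤ 2 ^ i := Nat.pow_le_pow_right (by norm_num) hi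

theorem testBit_of_lt_pow {m k i : ℕ} (h : m < 2 ^ k) (hi : k ≤ i) : m.testBit i = false := by
  apply Nat.testBit_lt_two_pow
  exact lt_of_lt_of_le h (Nat.pow_le_pow_right (by norm_num) hi)

theorem pc8_eq : ∀ m < 256, pc8 m = ((range 8).filter fun i => m.testBit i = true).card := by
  decide +kernel

/-! ## ports -/

/-- o enumerates the edges leaving X -/
structure Pts (G : MGraph V E) (X : Finset V) (k : ℕ) (o : ℕ → E) : Prop where
  mem : ∀ i < k, o i ∈ cut G X
  sur : ∀ e ∈ cut G X, ∃ i < k, o i = e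
  inj : ∀ i < k, ∀ j < k, o i = o j → i = j

/-- a part Y of X with parity b, port mask A and at most d inner edges -/
def Fct (G : MGraph V E) (X : Finset V) (o : ℕ → E) (k A : ℕ) (b : Bool) (d : ℕ) : Prop :=
  ∃ Y ⊆ X, (b = true ↔ Odd Y.card) ∧ (∀ i < k, (A.testBit i = true ↔ Tch G Y (o i))) ∧
    (univ.filter fun e => Tch G Y e ∧ Tch G (X \ Y) e).card ≤ d

/-- M gives edge sets, one for each colour below 2r, every vertex of X being covered exactly once
by each, and every edge meeting X lying in exactly two of them -/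
def Val (G : MGraph V E) (r : ℕ) (X : Finset V) (M : ℕ → Finset E) : Prop :=
  (∀ w ∈ X, ∀ c < 2 * r, dg G (M c) w = 1) ∧
    ∀ e, Tch G X e → ((range (2 * r)).filter fun c => e ∈ M c).card = 2

structure Inv (G : MGraph V E) (r : ℕ) (X : Finset V) (t : BT) (o : ℕ → E) : Prop where
  pts : Pts G X t.k o
  par : t.par = true ↔ Odd X.card
  fct : ∀ P ∈ t.fs, Fct G X o t.k P.1 P.2.1 P.2.2
  sts : ∀ j < t.n, ∃ M, Val G r X M ∧
    ∀ i < t.k, ∀ c < 2 * r, (o i ∈ M c ↔ (pmask (pcode t.st j i)).testBit c = true)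

variable {G : MGraph V E} {r : ℕ} {X : Finset V} {k : ℕ} {o : ℕ → E} {v : V} {lm m : ℕ} {n : ℕ → E}

theorem Pts.card_ports (P : Pts G X k o) (hk : k ≤ 8) (A : Finset E) (hA : A ⊆ cut G X) (q : ℕ)
    (hq : ∀ i, (q.testBit i = true ↔ (i < k ∧ o i ∈ A))) : pc8 q = A.card := by
  have h256 : q < 256 := by
    apply lt256_of
    intro i hi
    cases h : q.testBit i
    · rfl
    · have := ((hq i).1 h).1; omega
  rw [pc8_eq q h256]
  have : A = ((range 8).filter fun i => q.testBit i = true).image o := by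
    ext e
    simp only [mem_image, mem_filter, mem_range]
    constructor
    · intro he
      obtain ⟨i, hi, h⟩ := P.sur e (hA he)
      refine ⟨i, ⟨by omega, (hq i).2 ⟨hi, by rw [h]; exact he⟩⟩, h⟩
    · rintro ⟨i, ⟨_, hi⟩, h⟩
      rw [← h]; exact ((hq i).1 hi).2
  rw [this, card_image_of_injOn]
  intro i hi j hj hij
  simp only [coe_filter, mem_range, Set.mem_ofPred_eq] at hi hj
  exact P.inj i ((hq i).1 hi.2).1 j ((hq j).1 hj.2).1 hij

theorem Pts.card_cut (P : Pts G X k o) : (cut G X).card = k := by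
  have : cut G X = (range k).image o := by
    ext e
    rw [mem_image]
    constructor
    · intro he
      obtain ⟨i, hi, h⟩ := P.sur e he
      exact ⟨i, mem_range.2 hi, h⟩
    · rintro ⟨i, hi, h⟩
      rw [← h]; exact P.mem i (mem_range.1 hi)
  rw [this, card_image_of_injOn, card_range]
  intro i hi j hj hij
  rw [mem_coe, mem_range] at hi hj
  exact P.inj i hi j hj hij

/-- the situation of one step -/
structure Ctx (G : MGraph V E) (r : ℕ) (X : Finset V) (k : ℕ) (o : ℕ → E) (v : V) (lm m : ℕ)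
    (n : ℕ → E) : Prop where
  pts : Pts G X k o
  hk : k ≤ 8
  hv : v ∉ X
  hlm : ∀ i, (lm.testBit i = true ↔ (i < k ∧ v ∈ G.ends (o i)))
  hn : ∀ q < m, v ∈ G.ends (n q) ∧ n q ∉ cut G X
  hns : ∀ e, v ∈ G.ends e → e ∉ cut G X → ∃ q < m, n q = e
  hni : ∀ q < m, ∀ q' < m, n q = n q' → q = q'
  hr : m + pc8 lm = r
  hdeg : dg G univ v = r

def sr (o n : ℕ → E) (x : ℕ) : E := if x < 8 then o x else n (x - 8)

theorem Ctx.lm256 (C : Ctx G r X k o v lm m n) : lm < 256 := by
  apply lt256_of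
  intro i hi
  cases h : lm.testBit i
  · rfl
  · have := ((C.hlm i).1 h).1; have := C.hk; omega

theorem Ctx.ntch (C : Ctx G r X k o v lm m n) {q : ℕ} (hq : q < m) : ¬ Tch G X (n q) :=
  fun h => (C.hn q hq).2 (cut_of_tch C.hv h (C.hn q hq).1)

/-- valid source places -/
def vs (k lm m x : ℕ) : Prop := (x < k ∧ lm.testBit x = false) ∨ (8 ≤ x ∧ x < 8 + m)

theorem Ctx.tbM (C : Ctx G r X k o v lm m n) (x : ℕ) :
    tb (Nat.lor (Nat.xor (full k) lm) (Nat.shiftLeft (full (Nat.sub r (pc8 lm))) 8)) x = true ↔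
      vs k lm m x := by
  have hr : Nat.sub r (pc8 lm) = m := by
    have h1 : Nat.sub r (pc8 lm) = r - pc8 lm := rfl
    have := C.hr; omega
  rw [hr, tb_eq]
  have h1 : Nat.lor (Nat.xor (full k) lm) (Nat.shiftLeft (full m) 8) =
    ((full k) ^^^ lm) ||| ((full m) <<< 8) := rfl
  rw [h1, Nat.testBit_or, Nat.testBit_xor, full_testBit, Nat.testBit_shiftLeft, full_testBit]
  unfold vs
  have hk := C.hk
  by_cases hx : 8 ≤ x
  · have h2 : ¬ x < k := by omega
    have h3 : lm.testBit x = false := testBit_of_lt256 C.lm256 hx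
    simp only [h2, h3, hx, decide_false, Bool.false_bne, ge_iff_le, decide_true, Bool.true_and,
      Bool.false_or, decide_eq_true_eq, false_and, true_and, false_or]
    omega
  · have h4 : ¬ (x ≥ 8) := hx
    simp only [hx, h4, decide_false, Bool.false_and, Bool.or_false, false_and, or_false]
    by_cases h2 : x < k
    · simp only [h2, decide_true, Bool.true_bne, Bool.not_eq_true', true_and]
    · have h3 : lm.testBit x = false := by
        cases h : lm.testBit x
        · rfl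
        · exact absurd ((C.hlm x).1 h).1 h2
      simp [h2, h3]

/-- the target ports -/
structure Prt (k lm m k' c : ℕ) : Prop where
  p1 : ∀ i < k', vs k lm m (dig c i)
  p2 : ∀ x, vs k lm m x → ∃ i < k', dig c i = x
  p3 : ∀ i < k', ∀ j < k', dig c i = dig c j → i = j

theorem Ctx.prt (C : Ctx G r X k o v lm m n) (hr7 : r ≤ 8) {k' c : ℕ}
    (h : portsB r k lm k' c = true) : Prt k lm m k' c := by
  unfold portsB at h
  simp only [Bool.and_eq_true, allB_iff] at h
  obtain ⟨h1, h2, h3⟩ := h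
  refine ⟨fun i hi => (C.tbM _).1 (h1 i hi), ?_, ?_⟩
  · intro x hx
    have hx9 : x < 16 := by
      have := C.hr; have := C.hk
      rcases hx with hx | hx <;> omega
    have := h2 x hx9
    rw [(C.tbM x).2 hx, cond_true, anyB_iff] at this
    obtain ⟨i, hi, h⟩ := this
    exact ⟨i, hi, Nat.eq_of_beq_eq_true h⟩
  · have key : ∀ i < k', ∀ j < i, dig c j ≠ dig c i := by
      intro i hi j hj heq
      have := h3 i hi j hj
      rw [heq] at this
      simp at this
    intro i hi j hj hij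
    rcases Nat.lt_trichotomy i j with h | h | h
    · exact absurd hij (key j hj i h)
    · exact h
    · exact absurd hij.symm (key i hi j h)

theorem Ctx.src_cases (C : Ctx G r X k o v lm m n) {x : ℕ} (hx : vs k lm m x) :
    (x < 8 ∧ x < k ∧ sr o n x = o x ∧ o x ∈ cut G X ∧ v ∉ G.ends (o x)) ∨
    (¬ x < 8 ∧ x - 8 < m ∧ sr o n x = n (x - 8) ∧ n (x - 8) ∉ cut G X ∧
      v ∈ G.ends (n (x - 8))) := by
  have hk := C.hk
  rcases hx with ⟨h1, h2⟩ | ⟨h1, h2⟩
  · left
    have h6 : x < 8 := by omega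
    refine ⟨h6, h1, by unfold sr; rw [if_pos h6], C.pts.mem x h1, ?_⟩
    intro hv
    have := (C.hlm x).2 ⟨h1, hv⟩
    rw [h2] at this
    exact absurd this (by simp)
  · right
    have h6 : ¬ x < 8 := by omega
    have hq : x - 8 < m := by omega
    exact ⟨h6, hq, by unfold sr; rw [if_neg h6], (C.hn _ hq).2, (C.hn _ hq).1⟩

theorem Ctx.src_mem (C : Ctx G r X k o v lm m n) {x : ℕ} (hx : vs k lm m x) :
    sr o n x ∈ cut G (insert v X) := by
  rw [cut_insert C.hv]
  rcases C.src_cases hx with ⟨_, _, h, h1, h2⟩ | ⟨_, _, h, h1, h2⟩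
  · rw [h]; exact Or.inl ⟨h1, h2⟩
  · rw [h]; exact Or.inr ⟨h2, h1⟩

theorem Ctx.src_sur (C : Ctx G r X k o v lm m n) {e : E} (he : e ∈ cut G (insert v X)) :
    ∃ x, vs k lm m x ∧ sr o n x = e := by
  have hk := C.hk
  rw [cut_insert C.hv] at he
  rcases he with ⟨h1, h2⟩ | ⟨h1, h2⟩
  · obtain ⟨i, hi, h⟩ := C.pts.sur e h1
    refine ⟨i, Or.inl ⟨hi, ?_⟩, by unfold sr; rw [if_pos (by omega), h]⟩
    cases h' : lm.testBit i
    · rfl
    · have := ((C.hlm i).1 h').2
      rw [h] at this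
      exact absurd this h2
  · obtain ⟨q, hq, h⟩ := C.hns e h1 h2
    refine ⟨8 + q, Or.inr ⟨by omega, by omega⟩, ?_⟩
    unfold sr
    rw [if_neg (by omega), show 8 + q - 8 = q by omega, h]

theorem Ctx.src_inj (C : Ctx G r X k o v lm m n) {x y : ℕ} (hx : vs k lm m x)
    (hy : vs k lm m y) (h : sr o n x = sr o n y) : x = y := by
  rcases C.src_cases hx with ⟨h6, hxk, hx1, hx2, _⟩ | ⟨h6, hxr, hx1, hx2, _⟩ <;>
  rcases C.src_cases hy with ⟨g6, hyk, hy1, hy2, _⟩ | ⟨g6, hyr, hy1, hy2, _⟩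
  · rw [hx1, hy1] at h; exact C.pts.inj x hxk y hyk h
  · rw [hx1, hy1] at h; rw [h] at hx2; exact absurd hx2 hy2
  · rw [hx1, hy1] at h; rw [h] at hx2; exact absurd hy2 hx2
  · rw [hx1, hy1] at h
    have := C.hni _ hxr _ hyr h
    omega

/-- the ports of the new set -/
theorem Ctx.newPts (C : Ctx G r X k o v lm m n) {k' c : ℕ} (P : Prt k lm m k' c) :
    Pts G (insert v X) k' (fun i => sr o n (dig c i)) := by
  refine ⟨fun i hi => C.src_mem (P.p1 i hi), ?_, ?_⟩
  · intro e he
    obtain ⟨x, hx, hxe⟩ := C.src_sur he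
    obtain ⟨i, hi, hix⟩ := P.p2 x hx
    refine ⟨i, hi, ?_⟩
    beta_reduce
    rw [hix]; exact hxe
  · intro i hi j hj hij
    exact P.p3 i hi j hj (C.src_inj (P.p1 i hi) (P.p1 j hj) hij)

theorem exists_enum' (N : Finset E) (e0 : E) : ∃ n : ℕ → E,
    (∀ q < N.card, n q ∈ N) ∧ (∀ e ∈ N, ∃ q < N.card, n q = e) ∧
    (∀ q < N.card, ∀ q' < N.card, n q = n q' → q = q') := by
  refine ⟨fun q => N.toList.getD q e0, ?_, ?_, ?_⟩
  · intro q hq
    beta_reduce
    rw [List.getD_eq_getElem _ _ (by rw [length_toList]; exact hq), ← mem_toList]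
    exact List.getElem_mem _
  · intro e he
    obtain ⟨q, hq, h⟩ := List.getElem_of_mem (mem_toList.2 he)
    rw [length_toList] at hq
    refine ⟨q, hq, ?_⟩
    beta_reduce
    rw [List.getD_eq_getElem _ _ (by rw [length_toList]; exact hq), h]
  · intro q hq q' hq' h
    beta_reduce at h
    rw [List.getD_eq_getElem _ _ (by rw [length_toList]; exact hq),
      List.getD_eq_getElem _ _ (by rw [length_toList]; exact hq')] at h
    exact (List.Nodup.getElem_inj_iff N.nodup_toList).1 h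

theorem exists_ctx (e0 : E) (hd : dg G univ v = r) (hk : k ≤ 8) (I : Pts G X k o) (hv : v ∉ X) :
    ∃ (lm m : ℕ) (n : ℕ → E), Ctx G r X k o v lm m n := by
  obtain ⟨lm, hlm⟩ := exists_mask k (fun i => v ∈ G.ends (o i))
  have hd' : (univ.filter fun e => v ∈ G.ends e).card = r := hd
  obtain ⟨N, hN⟩ : ∃ N, N = (univ.filter fun e => v ∈ G.ends e) \ cut G X := ⟨_, rfl⟩
  have hNm : ∀ e, e ∈ N ↔ v ∈ G.ends e ∧ e ∉ cut G X := by
    intro e; rw [hN, mem_sdiff, mem_filter]; simp
  obtain ⟨n, hn1, hn2, hn3⟩ := exists_enum' N e0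
  have hcl : pc8 lm = ((univ.filter fun e => v ∈ G.ends e) ∩ cut G X).card := by
    apply I.card_ports hk
    · exact inter_subset_right
    · intro i
      rw [hlm i, mem_inter, mem_filter]
      constructor
      · rintro ⟨h1, h2⟩; exact ⟨h1, ⟨mem_univ _, h2⟩, I.mem i h1⟩
      · rintro ⟨h1, ⟨_, h2⟩, _⟩; exact ⟨h1, h2⟩
  refine ⟨lm, N.card, n, ⟨I, hk, hv, hlm, ?_, ?_, hn3, ?_, hd⟩⟩
  · intro q hq; exact (hNm _).1 (hn1 q hq)
  · intro e h1 h2; exact hn2 e ((hNm e).2 ⟨h1, h2⟩)
  · rw [hcl, hN, card_sdiff_add_card_inter, hd']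

end Pool.Agent.TH222.RG
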