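import Pool.Agent.TH222.RG.Fin
import Pool.Agent.TH222.RG.R1.All
import Pool.Agent.TH222.RG.R2.All
import Pool.Agent.TH222.RG.R3.All
import Pool.Agent.TH222.RG.R4.All
import Pool.Agent.TH222.RG.R5.All
import Pool.Agent.TH222.RG.R6.All

set_option autoImplicit false
set_option linter.unusedVariables false
set_option linter.unusedSectionVars false

open Finset
open Pool.Agent.Helper347.Sab (MGraph dg)

namespace Pool.Agent.TH222.RG

open Pool.Agent.TH697.CW6 (cut)

variable {V E : Type} [Fintype V] [DecidableEq V] [Fintype E] [DecidableEq E]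

theorem r_le (G : MGraph V E) {r w : ℕ} (hG : IsRGraph G r) (hw : CutwidthLE G w) (hV : Nonempty V) :
    r ≤ w := by
  obtain ⟨f, hf, hcut⟩ := hw
  obtain ⟨v0, _, hv0⟩ := exists_min_image (univ : Finset V) f univ_nonempty
  have h1 : (univ.filter fun v => f v < f v0 + 1) = {v0} := by
    ext u
    rw [mem_filter, mem_singleton]
    constructor
    · rintro ⟨_, h⟩
      apply hf
      have := hv0 u (mem_univ _)
      omega
    · intro h
      subst h
      exact ⟨mem_univ _, by omega⟩
  have h2 := hG.2 {v0} (by rw [card_singleton]; exact odd_one)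
  have h3 := hcut (f v0 + 1)
  rw [h1] at h3
  exact le_trans h2 h3

theorem main (G : MGraph V E) (r : ℕ) (hG : IsRGraph G r) (hw : CutwidthLE G 6) :
    HasDoubleCover G r := by
  rcases isEmpty_or_nonempty V with hV | hV
  · have hE : IsEmpty E := by
      refine ⟨fun e => ?_⟩
      obtain ⟨a, b, _, h⟩ := Pool.Agent.Helper347.Sab.exists_ends G e
      exact isEmptyElim a
    exact ⟨fun _ => ∅, fun i v => isEmptyElim v, fun e => isEmptyElim e⟩
  have hr := r_le G hG hw hV
  interval_cases r
  · refine ⟨fun _ => ∅, fun i v => ?_, fun e => ?_⟩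
    · exact absurd i.isLt (by omega)
    · exfalso
      obtain ⟨a, b, _, h⟩ := Pool.Agent.Helper347.Sab.exists_ends G e
      have h1 := hG.1 a
      unfold dg at h1
      rw [card_eq_zero, filter_eq_empty_iff] at h1
      exact h1 (mem_univ e) (by rw [h]; simp)
  · exact double_cover G (by norm_num) hG hw R1.tbl R1.ok_all R1.pos_all rfl rfl rfl
  · exact double_cover G (by norm_num) hG hw R2.tbl R2.ok_all R2.pos_all rfl rfl rfl
  · exact double_cover G (by norm_num) hG hw R3.tbl R3.ok_all R3.pos_all rfl rfl rfl
  · exact double_cover G (by norm_num) hG hw R4.tbl R4.ok_all R4.pos_all rfl rfl rfl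
  · exact double_cover G (by norm_num) hG hw R5.tbl R5.ok_all R5.pos_all rfl rfl rfl
  · exact double_cover G (by norm_num) hG hw R6.tbl R6.ok_all R6.pos_all rfl rfl rfl

end Pool.Agent.TH222.RG
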