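import Pool.Agent.TH222.RG.Gr

set_option autoImplicit false
set_option linter.unusedVariables false
set_option linter.unusedSectionVars false
set_option linter.unusedSimpArgs false

open Finset
open Pool.Agent.Helper347.Sab (MGraph dg)

namespace Pool.Agent.TH222.RG

open Pool.Agent.TH697.CW6 (Tch cut tch_iff cut_iff mem_ends_iff tch_of_cut cut_insert cut_of_tch
  tch_insert allB anyB tb dig full rem allB_iff anyB_iff tb_eq full_testBit rem_testBit exists_mask)

variable {V E : Type} [Fintype V] [DecidableEq V] [Fintype E] [DecidableEq E]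
variable {G : MGraph V E} {r : ℕ} {X : Finset V} {k : ℕ} {o : ℕ → E} {v : V} {lm m : ℕ} {n : ℕ → E}

/-- one step of the state: s maps target colours to source colours, a gives the source masks of the
old ports, b the target masks of the new ports, b' their images under s -/
theorem Ctx.sts_step (C : Ctx G r X k o v lm m n) {k' c : ℕ} (P : Prt k lm m k' c)
    {M : ℕ → Finset E} (hM : Val G r X M) (s : ℕ → ℕ) (hs : ∀ x < 2 * r, s x < 2 * r)
    (hsi : ∀ x < 2 * r, ∀ y < 2 * r, s x = s y → x = y)
    (hss : ∀ y < 2 * r, ∃ x < 2 * r, s x = y)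
    (a b b' : ℕ → ℕ) (ha : ∀ i < k, ∀ x < 2 * r, (o i ∈ M x ↔ (a i).testBit x = true))
    (hb2 : ∀ i < k', ((range (2 * r)).filter fun x => (b i).testBit x = true).card = 2)
    (hbb : ∀ i < k', ∀ x < 2 * r, ((b' i).testBit (s x) = true ↔ (b i).testBit x = true))
    (hold : ∀ i < k', dig c i < 8 → b' i = a (dig c i))
    (hor : ∀ y < 2 * r, (∃ p < k, lm.testBit p = true ∧ (a p).testBit y = true) ∨
      ∃ i < k', ¬ dig c i < 8 ∧ (b' i).testBit y = true) :
    ∃ M', Val G r (insert v X) M' ∧
      ∀ i < k', ∀ x < 2 * r, (sr o n (dig c i) ∈ M' x ↔ (b i).testBit x = true) := by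
  classical
  obtain ⟨hM1, hM2⟩ := hM
  obtain ⟨M', hM'⟩ : ∃ M' : ℕ → Finset E, ∀ x e, e ∈ M' x ↔ (Tch G X e ∧ e ∈ M (s x)) ∨
      (¬ Tch G X e ∧ ∃ i < k', sr o n (dig c i) = e ∧ (b i).testBit x = true) :=
    ⟨fun x => univ.filter fun e => (Tch G X e ∧ e ∈ M (s x)) ∨
      (¬ Tch G X e ∧ ∃ i < k', sr o n (dig c i) = e ∧ (b i).testBit x = true),
      fun x e => by simp⟩
  have hA : ∀ x e, Tch G X e → (e ∈ M' x ↔ e ∈ M (s x)) := by
    intro x e he
    rw [hM']
    tauto
  have hO : ∀ i < k', ∀ x < 2 * r, (sr o n (dig c i) ∈ M' x ↔ (b i).testBit x = true) := by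
    intro i hi x hx
    rcases C.src_cases (P.p1 i hi) with ⟨h6, hxk, hs1, hs2, hs3⟩ | ⟨h6, hxr, hs1, hs2, hs3⟩
    · rw [hs1, hA _ _ (tch_of_cut hs2), ha _ hxk _ (hs x hx), ← hold i hi h6]
      exact hbb i hi x hx
    · have hnt : ¬ Tch G X (sr o n (dig c i)) := by rw [hs1]; exact C.ntch hxr
      rw [hM']
      constructor
      · rintro (h | ⟨_, i', hi', h1, h2⟩)
        · exact absurd h.1 hnt
        · have := P.p3 i' hi' i hi (C.src_inj (P.p1 _ hi') (P.p1 i hi) h1)
          subst this
          exact h2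
      · intro h
        exact Or.inr ⟨hnt, i, hi, rfl, h⟩
  have hnew : ∀ e, ¬ Tch G X e → v ∈ G.ends e → ∃ i < k', sr o n (dig c i) = e := by
    intro e he hve
    have hc : e ∈ cut G (insert v X) := by
      rw [cut_insert C.hv]
      exact Or.inr ⟨hve, fun h => he (tch_of_cut h)⟩
    obtain ⟨x, hx, hxe⟩ := C.src_sur hc
    obtain ⟨i, hi, hix⟩ := P.p2 x hx
    exact ⟨i, hi, by rw [hix]; exact hxe⟩
  have hV2 : ∀ e, Tch G (insert v X) e →
      ((range (2 * r)).filter fun x => e ∈ M' x).card = 2 := by
    intro e he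
    by_cases hX : Tch G X e
    · refine Eq.trans ?_ (hM2 e hX)
      apply card_bij (fun x _ => s x)
      · intro x hx
        rw [mem_filter, mem_range] at hx ⊢
        exact ⟨hs x hx.1, (hA x e hX).1 hx.2⟩
      · intro x hx y hy hxy
        rw [mem_filter, mem_range] at hx hy
        exact hsi x hx.1 y hy.1 hxy
      · intro y hy
        rw [mem_filter, mem_range] at hy
        obtain ⟨x, hx, hxy⟩ := hss y hy.1
        refine ⟨x, ?_, hxy⟩
        rw [mem_filter, mem_range]
        refine ⟨hx, (hA x e hX).2 ?_⟩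
        rw [hxy]; exact hy.2
    · have hve : v ∈ G.ends e := by
        rcases tch_insert.1 he with h | h
        · exact absurd h hX
        · exact h
      obtain ⟨i, hi, hie⟩ := hnew e hX hve
      refine Eq.trans ?_ (hb2 i hi)
      congr 1
      apply filter_congr
      intro x hx
      rw [mem_range] at hx
      rw [← hie]
      exact hO i hi x hx
  refine ⟨M', ⟨?_, hV2⟩, hO⟩
  -- every colour at v
  have hge : ∀ x < 2 * r, 1 ≤ dg G (M' x) v := by
    intro x hx
    unfold dg
    rw [Nat.one_le_iff_ne_zero, ← Nat.pos_iff_ne_zero, card_pos]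
    rcases hor (s x) (hs x hx) with ⟨p, hp, hl, hb⟩ | ⟨i, hi, h8, hb⟩
    · refine ⟨o p, ?_⟩
      rw [mem_filter]
      have ht : Tch G X (o p) := tch_of_cut (C.pts.mem p hp)
      exact ⟨(hA x _ ht).2 ((ha p hp _ (hs x hx)).2 hb), ((C.hlm p).1 hl).2⟩
    · refine ⟨sr o n (dig c i), ?_⟩
      rw [mem_filter]
      refine ⟨(hO i hi x hx).2 ((hbb i hi x hx).1 hb), ?_⟩
      rcases C.src_cases (P.p1 i hi) with ⟨h6, hxk, hs1, hs2, hs3⟩ | ⟨h6, hxr, hs1, hs2, hs3⟩
      · exact absurd h6 h8
      · rw [hs1]; exact hs3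
  have hsum : ∑ x ∈ range (2 * r), dg G (M' x) v = 2 * r := by
    have h1 : ∀ x, dg G (M' x) v = (bipartiteAbove (fun x e => e ∈ M' x)
        (univ.filter fun e => v ∈ G.ends e) x).card := by
      intro x
      unfold dg bipartiteAbove
      congr 1
      ext e
      simp only [mem_filter, mem_univ, true_and]
      tauto
    rw [sum_congr rfl (fun x _ => h1 x), sum_card_bipartiteAbove_eq_sum_card_bipartiteBelow]
    have h2 : ∀ e ∈ (univ.filter fun e => v ∈ G.ends e),
        (bipartiteBelow (fun x e => e ∈ M' x) (range (2 * r)) e).card = 2 := by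
      intro e he
      rw [mem_filter] at he
      exact hV2 e (tch_insert.2 (Or.inr he.2))
    rw [sum_congr rfl h2, sum_const, smul_eq_mul]
    have : (univ.filter fun e => v ∈ G.ends e).card = r := C.hdeg
    rw [this]; ring
  have hall : ∀ x ∈ range (2 * r), 1 = dg G (M' x) v := by
    apply (sum_eq_sum_iff_of_le (fun x hx => hge x (mem_range.1 hx))).1
    rw [hsum, sum_const, card_range, smul_eq_mul, mul_one]
  intro w hw x hx
  by_cases hwX : w ∈ X
  · have : dg G (M' x) w = dg G (M (s x)) w := by
      unfold dg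
      congr 1
      ext e
      rw [mem_filter, mem_filter]
      constructor
      · rintro ⟨h1, h2⟩
        exact ⟨(hA x e ⟨w, hwX, h2⟩).1 h1, h2⟩
      · rintro ⟨h1, h2⟩
        exact ⟨(hA x e ⟨w, hwX, h2⟩).2 h1, h2⟩
    rw [this]
    exact hM1 w hwX _ (hs x hx)
  · have hwv : w = v := by
      rcases mem_insert.1 hw with h | h
      · exact h
      · exact absurd h hwX
    rw [hwv]
    exact (hall x (mem_range.2 hx)).symm

/-! ## facts -/

theorem tch_sdiff {e : E} (he : e ∈ cut G X) {Y : Finset V} (hY : Y ⊆ X) :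
    Tch G (X \ Y) e ↔ ¬ Tch G Y e := by
  obtain ⟨a, b, hab, hends⟩ := Pool.Agent.Helper347.Sab.exists_ends G e
  rw [cut_iff hends] at he
  rw [tch_iff hends, tch_iff hends, mem_sdiff, mem_sdiff]
  have h1 : a ∈ Y → a ∈ X := fun h => hY h
  have h2 : b ∈ Y → b ∈ X := fun h => hY h
  tauto

theorem Fct.flip {A : ℕ} {b p : Bool} {d : ℕ} (h : Fct G X o k A b d) (P : Pts G X k o)
    (hp : p = true ↔ Odd X.card) (A' : ℕ)
    (hA : ∀ i < k, (A'.testBit i = true ↔ ¬ A.testBit i = true)) :
    Fct G X o k A' (xorB b p) d := by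
  obtain ⟨Y, hY, hb, hport, hin⟩ := h
  refine ⟨X \ Y, sdiff_subset, ?_, ?_, ?_⟩
  · have hc : (X \ Y).card + Y.card = X.card := card_sdiff_add_card_eq_card hY
    have : xorB b p = true ↔ ¬ (b = true ↔ p = true) := by
      cases b <;> cases p <;> simp [xorB]
    rw [this, hb, hp, ← hc, Nat.odd_add]
    rw [Nat.odd_iff, Nat.odd_iff, Nat.even_iff]
    omega
  · intro i hi
    rw [hA i hi, hport i hi, tch_sdiff (P.mem i hi) hY]
  · have : X \ (X \ Y) = Y := by rw [sdiff_sdiff_right_self]; exact inter_eq_right.2 hY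
    rw [this]
    refine le_trans (le_of_eq ?_) hin
    congr 1
    apply filter_congr
    intro e _
    exact and_comm

theorem Ctx.fct_stay (C : Ctx G r X k o v lm m n) {k' c A : ℕ} {b : Bool} {d : ℕ}
    (P : Prt k lm m k' c) (hA : A < 2 ^ k) (h : Fct G X o k A b d) {A' d' : ℕ}
    (hd : d + pc8 (Nat.land lm A) ≤ d')
    (hag : ∀ i < k', tb A' i = tb (rem A lm) (dig c i)) :
    Fct G (insert v X) (fun i => sr o n (dig c i)) k' A' b d' := by
  obtain ⟨Y, hY, hb, hport, hin⟩ := h
  have hk := C.hk
  refine ⟨Y, hY.trans (subset_insert _ _), hb, ?_, ?_⟩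
  · intro i hi
    have h1 := hag i hi
    rw [tb_eq, tb_eq, rem_testBit] at h1
    rw [h1]
    rcases C.src_cases (P.p1 i hi) with ⟨h6, hxk, hs1, hs2, hs3⟩ | ⟨h6, hxr, hs1, hs2, hs3⟩
    · have hl : lm.testBit (dig c i) = false := by
        cases hl : lm.testBit (dig c i)
        · rfl
        · exact absurd ((C.hlm _).1 hl).2 hs3
      rw [hl]
      simp only [Bool.not_false, Bool.and_true]
      beta_reduce
      rw [hs1, hport _ hxk]
    · have hl : A.testBit (dig c i) = false := testBit_of_lt_pow hA (by omega)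
      rw [hl]
      simp only [Bool.false_and, Bool.false_eq_true, false_iff]
      beta_reduce
      rw [hs1]
      rintro ⟨w, hw, hw'⟩
      exact C.ntch hxr ⟨w, hY hw, hw'⟩
  · have hl : pc8 (Nat.land lm A) =
        ((cut G X).filter fun e => v ∈ G.ends e ∧ Tch G Y e).card := by
      apply C.pts.card_ports hk
      · exact filter_subset _ _
      · intro i
        have e1 : Nat.land lm A = lm &&& A := rfl
        rw [e1, Nat.testBit_and, Bool.and_eq_true, C.hlm i, mem_filter]
        constructor
        · rintro ⟨⟨h1, h2⟩, h3⟩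
          exact ⟨h1, C.pts.mem i h1, h2, (hport i h1).1 h3⟩
        · rintro ⟨h1, _, h2, h3⟩
          exact ⟨⟨h1, h2⟩, (hport i h1).2 h3⟩
    refine le_trans ?_ hd
    rw [hl]
    refine le_trans ?_ (Nat.add_le_add_right hin _)
    refine le_trans (card_le_card ?_) (card_union_le _ _)
    intro e he
    rw [mem_filter] at he
    obtain ⟨_, h1, w, hw, hw'⟩ := he
    rw [mem_union, mem_filter, mem_filter]
    rw [mem_sdiff, mem_insert] at hw
    rcases hw with ⟨hw1 | hw1, hw2⟩
    · right
      subst hw1
      refine ⟨?_, hw', h1⟩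
      obtain ⟨u, hu, hu'⟩ := h1
      exact cut_of_tch C.hv ⟨u, hY hu, hu'⟩ hw'
    · left
      exact ⟨mem_univ _, h1, w, mem_sdiff.2 ⟨hw1, hw2⟩, hw'⟩

theorem lm_lt (C : Ctx G r X k o v lm m n) : lm < 2 ^ k := by
  by_contra hcon
  push Not at hcon
  obtain ⟨i, hi, hi2⟩ := Nat.exists_ge_and_testBit_of_ge_two_pow hcon
  have := ((C.hlm i).1 hi2).1
  omega

theorem xor_full_lt {A : ℕ} (hA : A < 2 ^ k) : Nat.xor (full k) A < 2 ^ k := by
  have e3 : Nat.xor (full k) A = full k ^^^ A := rfl
  have e4 : full k = 2 ^ k - 1 := by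
    have : full k = (1 <<< k) - 1 := rfl
    rw [this, Nat.one_shiftLeft]
  rw [e3]
  apply Nat.xor_lt_two_pow
  · rw [e4]; have : 0 < 2 ^ k := by positivity
    omega
  · exact hA

theorem xor_full_testBit {A : ℕ} (i : ℕ) :
    (Nat.xor (full k) A).testBit i = (decide (i < k) ^^ A.testBit i) := by
  have e3 : Nat.xor (full k) A = full k ^^^ A := rfl
  rw [e3, Nat.testBit_xor, full_testBit]

theorem Ctx.fct_join (C : Ctx G r X k o v lm m n) {k' c A : ℕ} {b p : Bool} {d : ℕ}
    (P : Prt k lm m k' c) (hA : A < 2 ^ k) (hp : p = true ↔ Odd X.card)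
    (h : Fct G X o k A b d) {A' d' : ℕ} (hd : d + pc8 (rem lm A) ≤ d')
    (hag : ∀ i < k', tb A' i =
      tb (Nat.lor (rem A lm) (Nat.shiftLeft (full (Nat.sub r (pc8 lm))) 8)) (dig c i)) :
    Fct G (insert v X) (fun i => sr o n (dig c i)) k' A' (xorB b true) d' := by
  have hk := C.hk
  have h1 := h.flip C.pts hp (Nat.xor (full k) A) (by
    intro i hi
    rw [xor_full_testBit, decide_eq_true hi]
    cases A.testBit i <;> simp)
  have e2 : Nat.land lm (Nat.xor (full k) A) = rem lm A := by
    apply Nat.eq_of_testBit_eq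
    intro i
    have e1 : Nat.land lm (Nat.xor (full k) A) = lm &&& (Nat.xor (full k) A) := rfl
    rw [e1, Nat.testBit_and, xor_full_testBit, rem_testBit]
    by_cases hi : i < k
    · rw [decide_eq_true hi]
      cases lm.testBit i <;> cases A.testBit i <;> rfl
    · have : lm.testBit i = false := by
        cases hl : lm.testBit i
        · rfl
        · exact absurd ((C.hlm _).1 hl).1 hi
      rw [this]; rfl
  have h2 := C.fct_stay P (xor_full_lt hA) h1 (A' := Nat.xor (full k') A') (d' := d')
    (by rw [e2]; exact hd) (by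
      intro i hi
      have h3 := hag i hi
      rw [tb_eq, tb_eq] at h3
      rw [tb_eq, tb_eq, xor_full_testBit, decide_eq_true hi, h3, rem_testBit, xor_full_testBit]
      have e5 : Nat.lor (rem A lm) (Nat.shiftLeft (full (Nat.sub r (pc8 lm))) 8) =
        (rem A lm) ||| ((full (r - pc8 lm)) <<< 8) := rfl
      rw [e5, Nat.testBit_or, rem_testBit, Nat.testBit_shiftLeft, full_testBit]
      have hr := C.hr
      rcases C.src_cases (P.p1 i hi) with ⟨h6, hxk, hs1, hs2, hs3⟩ | ⟨h6, hxr, hs1, hs2, hs3⟩
      · have hl : lm.testBit (dig c i) = false := by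
          cases hl : lm.testBit (dig c i)
          · rfl
          · exact absurd ((C.hlm _).1 hl).2 hs3
        have h8 : ¬ (dig c i ≥ 8) := by omega
        rw [hl, decide_eq_true hxk, decide_eq_false h8]
        cases A.testBit (dig c i) <;> rfl
      · have hl : A.testBit (dig c i) = false := testBit_of_lt_pow hA (by omega)
        have hl2 : lm.testBit (dig c i) = false := testBit_of_lt256 C.lm256 (by omega)
        have h8 : dig c i ≥ 8 := by omega
        have h9 : dig c i - 8 < r - pc8 lm := by omega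
        have h10 : ¬ dig c i < k := by omega
        rw [hl, hl2, decide_eq_false h10, decide_eq_true h8, decide_eq_true h9]
        rfl)
  have hp' : (xorB p true) = true ↔ Odd (insert v X).card := by
    rw [card_insert_of_notMem C.hv]
    have : xorB p true = true ↔ ¬ (p = true) := by cases p <;> simp [xorB]
    rw [this, hp, Nat.odd_add_one]
  have h4 := h2.flip (C.newPts P) hp' A' (by
    intro i hi
    rw [xor_full_testBit, decide_eq_true hi]
    cases A'.testBit i <;> simp)
  have e6 : xorB (xorB b p) (xorB p true) = xorB b true := by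
    cases b <;> cases p <;> rfl
  rw [e6] at h4
  exact h4

/-- an excluded pattern does not occur -/
theorem Ctx.excl (C : Ctx G r X k o v lm m n)
    (hodd : ∀ Y : Finset V, Odd Y.card → r ≤ (cut G Y).card)
    {A : ℕ} {b : Bool} {d : ℕ} (hA : A < 2 ^ k) (h : Fct G X o k A b d) :
    exF r lm A b d = false := by
  cases hex : exF r lm A b d
  · rfl
  exfalso
  unfold exF at hex
  cases b
  · rw [cond_false] at hex
    have hex' := Nat.le_of_ble_eq_true hex
    obtain ⟨Y, hY, hb, hport, hin⟩ := h
    have hk := C.hk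
    have hr := C.hr
    have hvY : v ∉ Y := fun hv => C.hv (hY hv)
    have hev : Odd (insert v Y).card := by
      rw [card_insert_of_notMem hvY, Nat.odd_add_one]
      intro ho
      exact absurd (hb.2 ho) (by simp)
    have h1 := hodd _ hev
    have hc1 : pc8 (rem A lm) = ((cut G X).filter fun e => v ∉ G.ends e ∧ Tch G Y e).card := by
      apply C.pts.card_ports hk
      · exact filter_subset _ _
      · intro i
        rw [rem_testBit, Bool.and_eq_true, Bool.not_eq_true', mem_filter]
        constructor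
        · rintro ⟨h2, h3⟩
          have hik : i < k := by
            by_contra hcon
            rw [testBit_of_lt_pow hA (by omega)] at h2
            exact absurd h2 (by simp)
          refine ⟨hik, C.pts.mem i hik, ?_, (hport i hik).1 h2⟩
          intro hve
          rw [(C.hlm i).2 ⟨hik, hve⟩] at h3
          exact absurd h3 (by simp)
        · rintro ⟨hik, _, h2, h3⟩
          refine ⟨(hport i hik).2 h3, ?_⟩
          cases hl : lm.testBit i
          · rfl
          · exact absurd ((C.hlm _).1 hl).2 h2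
    have hc2 : pc8 (rem lm A) = ((cut G X).filter fun e => v ∈ G.ends e ∧ ¬ Tch G Y e).card := by
      apply C.pts.card_ports hk
      · exact filter_subset _ _
      · intro i
        rw [rem_testBit, Bool.and_eq_true, Bool.not_eq_true', mem_filter]
        constructor
        · rintro ⟨h2, h3⟩
          obtain ⟨hik, hve⟩ := (C.hlm i).1 h2
          refine ⟨hik, C.pts.mem i hik, hve, ?_⟩
          intro ht
          rw [(hport i hik).2 ht] at h3
          exact absurd h3 (by simp)
        · rintro ⟨hik, _, h2, h3⟩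
          refine ⟨(C.hlm i).2 ⟨hik, h2⟩, ?_⟩
          cases hl : A.testBit i
          · rfl
          · exact absurd ((hport i hik).1 hl) h3
    have hc3 : (univ.filter fun e => v ∈ G.ends e ∧ e ∉ cut G X).card ≤ m := by
      have : (univ.filter fun e => v ∈ G.ends e ∧ e ∉ cut G X) ⊆ (range m).image n := by
        intro e he
        rw [mem_filter] at he
        obtain ⟨q, hq, hqe⟩ := C.hns e he.2.1 he.2.2
        rw [mem_image]
        exact ⟨q, mem_range.2 hq, hqe⟩
      refine le_trans (card_le_card this) (le_trans card_image_le ?_)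
      rw [card_range]
    have hsub : cut G (insert v Y) ⊆
        ((univ.filter fun e => Tch G Y e ∧ Tch G (X \ Y) e) ∪
          ((cut G X).filter fun e => v ∉ G.ends e ∧ Tch G Y e)) ∪
        (((cut G X).filter fun e => v ∈ G.ends e ∧ ¬ Tch G Y e) ∪
          (univ.filter fun e => v ∈ G.ends e ∧ e ∉ cut G X)) := by
      intro e he
      rw [cut_insert hvY] at he
      rw [mem_union, mem_union, mem_union, mem_filter, mem_filter, mem_filter, mem_filter]
      rcases he with ⟨h2, h3⟩ | ⟨h2, h3⟩
      · left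
        have ht : Tch G Y e := tch_of_cut h2
        unfold cut at h2
        rw [mem_filter] at h2
        obtain ⟨_, _, w, hw, hw'⟩ := h2
        by_cases hwX : w ∈ X
        · exact Or.inl ⟨mem_univ _, ht, w, mem_sdiff.2 ⟨hwX, hw⟩, hw'⟩
        · right
          obtain ⟨u, hu, hu'⟩ := ht
          exact ⟨cut_of_tch hwX ⟨u, hY hu, hu'⟩ hw', h3, u, hu, hu'⟩
      · right
        by_cases hcX : e ∈ cut G X
        · left
          exact ⟨hcX, h2, fun ht => h3 (cut_of_tch hvY ht h2)⟩
        · exact Or.inr ⟨mem_univ _, h2, hcX⟩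
    have h5 := le_trans (card_le_card hsub) (le_trans (card_union_le _ _)
      (Nat.add_le_add (card_union_le _ _) (card_union_le _ _)))
    rw [← hc1, ← hc2] at h5
    have e7 : Nat.add (Nat.add d (pc8 (rem A lm))) (Nat.add (pc8 (rem lm A)) (Nat.sub r (pc8 lm))) =
      d + pc8 (rem A lm) + (pc8 (rem lm A) + (r - pc8 lm)) := rfl
    omega
  · rw [cond_true] at hex
    exact absurd hex (by simp)

end Pool.Agent.TH222.RG
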