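import Pool.Agent.TH222.RG.St

set_option autoImplicit false
set_option linter.unusedVariables false
set_option linter.unusedSectionVars false
set_option linter.unusedSimpArgs false

open Finset
open Pool.Agent.Helper347.Sab (MGraph dg)

namespace Pool.Agent.TH222.RG

open Pool.Agent.TH697.CW6 (Tch cut tch_iff cut_iff mem_ends_iff tch_of_cut cut_insert cut_of_tch
  tch_insert allB anyB tb dig full rem allB_iff anyB_iff tb_eq full_testBit rem_testBit exists_mask)

variable {V E : Type} [Fintype V] [DecidableEq V] [Fintype E] [DecidableEq E]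
variable {G : MGraph V E} {r : ℕ} {X : Finset V} {k : ℕ} {o : ℕ → E} {v : V} {lm m : ℕ} {n : ℕ → E}

theorem blt_iff (a b : ℕ) : Nat.blt a b = true ↔ a < b :=
  ⟨fun h => Nat.le_of_ble_eq_true h, fun h => Nat.ble_eq_true_of_le h⟩

theorem ble_iff (a b : ℕ) : Nat.ble a b = true ↔ a ≤ b :=
  ⟨fun h => Nat.le_of_ble_eq_true h, fun h => Nat.ble_eq_true_of_le h⟩

theorem beq_iff (a b : ℕ) : Nat.beq a b = true ↔ a = b :=
  ⟨fun h => Nat.eq_of_beq_eq_true h, fun h => by subst h; exact Nat.beq_refl a⟩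

/-! ## facts -/

theorem Fct_zero (X : Finset V) (o : ℕ → E) (k : ℕ) : Fct G X o k 0 false 0 := by
  refine ⟨∅, empty_subset _, by simp, ?_, ?_⟩
  · intro i _
    simp only [Nat.zero_testBit, Bool.false_eq_true, false_iff]
    rintro ⟨w, hw, _⟩
    exact notMem_empty _ hw
  · rw [Nat.le_zero, card_eq_zero, filter_eq_empty_iff]
    rintro e _ ⟨⟨w, hw, _⟩, _⟩
    exact notMem_empty _ hw

theorem Fct_full (P : Pts G X k o) {p : Bool} (hp : p = true ↔ Odd X.card) :
    Fct G X o k (full k) p 0 := by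
  refine ⟨X, Subset.refl _, hp, ?_, ?_⟩
  · intro i hi
    rw [full_testBit, decide_eq_true hi]
    simp only [true_iff]
    exact tch_of_cut (P.mem i hi)
  · rw [Nat.le_zero, card_eq_zero, filter_eq_empty_iff]
    rintro e _ ⟨_, w, hw, _⟩
    rw [sdiff_self] at hw
    exact notMem_empty _ hw

theorem full_lt_pow (k : ℕ) : full k < 2 ^ k := by
  have e4 : full k = 2 ^ k - 1 := by
    have : full k = (1 <<< k) - 1 := rfl
    rw [this, Nat.one_shiftLeft]
  have : 0 < 2 ^ k := by positivity
  omega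

theorem Fct.flip' {A : ℕ} {b p : Bool} {d : ℕ} (h : Fct G X o k A b d) (P : Pts G X k o)
    (hp : p = true ↔ Odd X.card) : Fct G X o k (Nat.xor (full k) A) (xorB b p) d :=
  h.flip P hp _ (by
    intro i hi
    rw [xor_full_testBit, decide_eq_true hi]
    cases A.testBit i <;> simp)

theorem Ctx.not_exclB {t : BT} {o : ℕ → E} (C : Ctx G r X t.k o v lm m n) (I : Inv G r X t o)
    (hodd : ∀ Y : Finset V, Odd Y.card → r ≤ (cut G Y).card)
    (hfs : ∀ Q ∈ t.fs, Q.1 < 2 ^ t.k) : exclB r t lm = false := by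
  cases hex : exclB r t lm
  · rfl
  exfalso
  unfold exclB at hex
  rw [Bool.or_eq_true, List.any_eq_true] at hex
  rcases hex with h | ⟨P, hP, h⟩
  · rw [C.excl hodd (full_lt_pow _) (Fct_full I.pts I.par)] at h
    exact absurd h (by simp)
  · rw [Bool.or_eq_true] at h
    rcases h with h | h
    · rw [C.excl hodd (hfs P hP) (I.fct P hP)] at h
      exact absurd h (by simp)
    · rw [C.excl hodd (xor_full_lt (hfs P hP)) ((I.fct P hP).flip' I.pts I.par)] at h
      exact absurd h (by simp)

theorem Ctx.getF_spec (C : Ctx G r X k o v lm m n) {k' c : ℕ} (P : Prt k lm m k' c) {p : Bool}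
    (hp : p = true ↔ Odd X.card) {Q : ℕ × Bool × ℕ} {A : ℕ} {b : Bool} {d : ℕ} (hA : A < 2 ^ k)
    (h : Fct G X o k A b d) (hg : getF r lm k' c Q A b d = true) :
    Fct G (insert v X) (fun i => sr o n (dig c i)) k' Q.1 Q.2.1 Q.2.2 := by
  unfold getF at hg
  cases hx : xorB b Q.2.1
  · rw [hx, cond_false, Bool.and_eq_true, ble_iff] at hg
    have hb : b = Q.2.1 := by
      revert hx; cases b <;> cases Q.2.1 <;> simp [xorB]
    rw [← hb]
    refine C.fct_stay P hA h hg.1 ?_
    intro i hi
    have h2 := hg.2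
    unfold agreeB at h2
    rw [allB_iff] at h2
    have h3 := h2 i hi
    revert h3
    cases tb Q.1 i <;> cases tb (rem A lm) (dig c i) <;> simp [xorB]
  · rw [hx, cond_true, Bool.and_eq_true, ble_iff] at hg
    have hb : Q.2.1 = xorB b true := by
      revert hx; cases b <;> cases Q.2.1 <;> simp [xorB]
    rw [hb]
    refine C.fct_join P hA hp h hg.1 ?_
    intro i hi
    have h2 := hg.2
    unfold agreeB at h2
    rw [allB_iff] at h2
    have h3 := h2 i hi
    revert h3
    cases tb Q.1 i <;>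
      cases tb (Nat.lor (rem A lm) (Nat.shiftLeft (full (Nat.sub r (pc8 lm))) 8)) (dig c i) <;>
      simp [xorB]

theorem Ctx.factB_spec {t : BT} {o : ℕ → E} (C : Ctx G r X t.k o v lm m n) (I : Inv G r X t o)
    (hfs : ∀ Q ∈ t.fs, Q.1 < 2 ^ t.k) {k' c : ℕ} (P : Prt t.k lm m k' c) {Q : ℕ × Bool × ℕ}
    (hg : factB r t lm k' c Q = true) :
    Fct G (insert v X) (fun i => sr o n (dig c i)) k' Q.1 Q.2.1 Q.2.2 := by
  unfold factB at hg
  rw [Bool.or_eq_true, Bool.or_eq_true, List.any_eq_true] at hg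
  rcases hg with h | h | ⟨R, hR, h⟩
  · exact C.getF_spec P I.par (by positivity) (Fct_zero _ _ _) h
  · exact C.getF_spec P I.par (full_lt_pow _) (Fct_full I.pts I.par) h
  · rw [Bool.or_eq_true] at h
    rcases h with h | h
    · exact C.getF_spec P I.par (hfs R hR) (I.fct R hR) h
    · exact C.getF_spec P I.par (xor_full_lt (hfs R hR)) ((I.fct R hR).flip' I.pts I.par) h

/-! ## states -/

theorem orB_testBit {n : ℕ} {f : ℕ → ℕ} {c : ℕ} :
    (orB n f).testBit c = true ↔ ∃ j < n, (f j).testBit c = true := by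
  induction n with
  | zero => simp [orB]
  | succ n ih =>
    have h0 : orB (n + 1) f = f n ||| orB n f := rfl
    rw [h0, Nat.testBit_or, Bool.or_eq_true, ih]
    constructor
    · rintro (h | ⟨j, hj, h⟩)
      · exact ⟨n, by omega, h⟩
      · exact ⟨j, by omega, h⟩
    · rintro ⟨j, hj, h⟩
      rcases Nat.lt_succ_iff_lt_or_eq.1 hj with h' | h'
      · exact Or.inr ⟨j, h', h⟩
      · subst h'; exact Or.inl h

theorem one_shl_testBit (a c : ℕ) : (Nat.shiftLeft 1 a).testBit c = true ↔ c = a := by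
  have : Nat.shiftLeft 1 a = 1 <<< a := rfl
  rw [this, Nat.one_shiftLeft, Nat.testBit_two_pow]
  rw [decide_eq_true_eq]
  exact eq_comm

theorem pmask_testBit (x c : ℕ) : (pmask x).testBit c = true ↔
    c = Nat.land x 15 ∨ c = Nat.shiftRight x 4 := by
  unfold pmask
  have : Nat.lor (Nat.shiftLeft 1 (Nat.land x 15)) (Nat.shiftLeft 1 (Nat.shiftRight x 4)) =
    (Nat.shiftLeft 1 (Nat.land x 15)) ||| (Nat.shiftLeft 1 (Nat.shiftRight x 4)) := rfl
  rw [this, Nat.testBit_or, Bool.or_eq_true, one_shl_testBit, one_shl_testBit]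

theorem qmask_testBit (q x c : ℕ) : (qmask q x).testBit c = true ↔
    c = cm q (Nat.land x 15) ∨ c = cm q (Nat.shiftRight x 4) := by
  unfold qmask
  have : Nat.lor (Nat.shiftLeft 1 (cm q (Nat.land x 15)))
      (Nat.shiftLeft 1 (cm q (Nat.shiftRight x 4))) =
    (Nat.shiftLeft 1 (cm q (Nat.land x 15))) |||
      (Nat.shiftLeft 1 (cm q (Nat.shiftRight x 4))) := rfl
  rw [this, Nat.testBit_or, Bool.or_eq_true, one_shl_testBit, one_shl_testBit]

/-- well formed code -/
def OkC (r x : ℕ) : Prop :=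
  Nat.land x 15 ≠ Nat.shiftRight x 4 ∧ Nat.land x 15 < 2 * r ∧ Nat.shiftRight x 4 < 2 * r

theorem OkC.card {r x : ℕ} (h : OkC r x) :
    ((range (2 * r)).filter fun c => (pmask x).testBit c = true).card = 2 := by
  obtain ⟨h1, h2, h3⟩ := h
  have : ((range (2 * r)).filter fun c => (pmask x).testBit c = true) =
      {Nat.land x 15, Nat.shiftRight x 4} := by
    ext c
    rw [mem_filter, mem_range, pmask_testBit, mem_insert, mem_singleton]
    constructor
    · rintro ⟨_, h⟩; exact h
    · rintro (h | h)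
      · subst h; exact ⟨h2, Or.inl rfl⟩
      · subst h; exact ⟨h3, Or.inr rfl⟩
  rw [this, card_pair h1]

theorem Ctx.stateOK_spec (C : Ctx G r X k o v lm m n) {k' c : ℕ} (P : Prt k lm m k' c)
    {M : ℕ → Finset E} (hM : Val G r X M) {st0 sc q st' j : ℕ}
    (ha : ∀ i < k, ∀ x < 2 * r, (o i ∈ M x ↔ (pmask (pcode st0 sc i)).testBit x = true))
    (hok : ∀ i < k', OkC r (pcode st' j i))
    (h : stateOK r k lm st0 sc q k' st' j c = true) :
    ∃ M', Val G r (insert v X) M' ∧
      ∀ i < k', ∀ x < 2 * r, (sr o n (dig c i) ∈ M' x ↔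
        (pmask (pcode st' j i)).testBit x = true) := by
  unfold stateOK at h
  simp only [Bool.and_eq_true, allB_iff, beq_iff, blt_iff] at h
  obtain ⟨h1, h2, h3, h4⟩ := h
  have e1 : Nat.mul 2 r = 2 * r := rfl
  rw [e1] at h2 h3 h4
  have hss : ∀ y < 2 * r, ∃ x < 2 * r, cm q x = y := by
    intro y hy
    have : (full (2 * r)).testBit y = true := by
      rw [full_testBit, decide_eq_true_eq]; exact hy
    rw [← h3, orB_testBit] at this
    obtain ⟨x, hx, h⟩ := this
    rw [one_shl_testBit] at h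
    exact ⟨x, hx, h.symm⟩
  have hsi : ∀ x < 2 * r, ∀ y < 2 * r, cm q x = cm q y → x = y := by
    have hmaps : Set.MapsTo (cm q) ((range (2 * r) : Finset ℕ) : Set ℕ)
        ((range (2 * r) : Finset ℕ) : Set ℕ) := by
      intro x hx
      rw [mem_coe, mem_range] at hx ⊢
      exact h4 x hx
    have hsurj : Set.SurjOn (cm q) ((range (2 * r) : Finset ℕ) : Set ℕ)
        ((range (2 * r) : Finset ℕ) : Set ℕ) := by
      intro y hy
      rw [mem_coe, mem_range] at hy
      obtain ⟨x, hx, h⟩ := hss y hy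
      exact ⟨x, by rw [mem_coe, mem_range]; exact hx, h⟩
    have hinj := Finset.injOn_of_surjOn_of_card_le (cm q) hmaps hsurj le_rfl
    intro x hx y hy hxy
    exact hinj (by rw [mem_coe, mem_range]; exact hx) (by rw [mem_coe, mem_range]; exact hy) hxy
  refine C.sts_step P hM (cm q) h4 hsi hss (fun i => pmask (pcode st0 sc i))
    (fun i => pmask (pcode st' j i)) (fun i => qmask q (pcode st' j i)) ha
    (fun i hi => (hok i hi).card) ?_ ?_ ?_
  · intro i hi x hx
    obtain ⟨_, g2, g3⟩ := hok i hi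
    beta_reduce
    rw [qmask_testBit, pmask_testBit]
    constructor
    · rintro (h | h)
      · exact Or.inl (hsi _ hx _ g2 h)
      · exact Or.inr (hsi _ hx _ g3 h)
    · rintro (h | h)
      · left; rw [h]
      · right; rw [h]
  · intro i hi h8
    have := h1 i hi
    rw [(blt_iff _ _).2 h8, cond_true] at this
    exact Nat.eq_of_beq_eq_true this
  · intro y hy
    have : (full (2 * r)).testBit y = true := by
      rw [full_testBit, decide_eq_true_eq]; exact hy
    rw [← h2] at this
    have e2 : ∀ a b : ℕ, Nat.lor a b = a ||| b := fun a b => rfl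
    rw [e2, Nat.testBit_or, Bool.or_eq_true, orB_testBit, orB_testBit] at this
    rcases this with ⟨p, hp, h⟩ | ⟨i, hi, h⟩
    · left
      refine ⟨p, hp, ?_⟩
      cases hl : tb lm p
      · rw [hl, cond_false, Nat.zero_testBit] at h
        exact absurd h (by simp)
      · rw [hl, cond_true] at h
        rw [tb_eq] at hl
        exact ⟨hl, h⟩
    · right
      refine ⟨i, hi, ?_⟩
      cases hl : Nat.blt (dig c i) 8
      · rw [hl, cond_false] at h
        refine ⟨?_, h⟩
        intro h8
        rw [(blt_iff _ _).2 h8] at hl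
        exact absurd hl (by simp)
      · rw [hl, cond_true, Nat.zero_testBit] at h
        exact absurd h (by simp)

structure OkBT (r : ℕ) (t : BT) : Prop where
  hk : t.k ≤ 8
  hfs : ∀ Q ∈ t.fs, Q.1 < 2 ^ t.k
  hc : ∀ j < t.n, ∀ i < t.k, OkC r (pcode t.st j i)

theorem okB_spec {t : BT} (h : okB r t = true) : OkBT r t := by
  unfold okB at h
  simp only [Bool.and_eq_true, allB_iff, List.all_eq_true, ble_iff, blt_iff] at h
  obtain ⟨h1, h4, h5⟩ := h
  refine ⟨h1, ?_, ?_⟩
  · intro Q hQ
    have := h4 Q hQ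
    have e : Nat.shiftLeft 1 t.k = 1 <<< t.k := rfl
    rw [e, Nat.one_shiftLeft] at this
    exact this
  · intro j hj i hi
    obtain ⟨g1, g2, g3⟩ := h5 j hj i hi
    refine ⟨?_, g2, g3⟩
    intro heq
    rw [Bool.not_eq_true', (beq_iff _ _).2 heq] at g1
    exact absurd g1 (by simp)

/-- one step -/
theorem step {w : ℕ} (hr8 : r ≤ 8) (e0 : E) (hreg : ∀ v, dg G univ v = r)
    (hodd : ∀ Y : Finset V, Odd Y.card → r ≤ (cut G Y).card)
    (tbl : ℕ → BT) (hok : ∀ i, ∃ es, chkBT r w tbl (tbl i) es = true)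
    {i0 : ℕ} {o : ℕ → E} (I : Inv G r X (tbl i0) o) (hv : v ∉ X)
    (hw : (cut G (insert v X)).card ≤ w) :
    ∃ i1 o', Inv G r (insert v X) (tbl i1) o' := by
  obtain ⟨es, hes⟩ := hok i0
  unfold chkBT at hes
  simp only [Bool.and_eq_true, allB_iff, List.all_eq_true] at hes
  obtain ⟨hes1, hes2, hes3⟩ := hes
  have O := okB_spec hes1
  obtain ⟨lm, m, n, C⟩ := exists_ctx e0 (hreg v) O.hk I.pts hv
  have hlt : lm < 2 ^ (tbl i0).k := lm_lt C
  have hr := C.hr
  -- the number of new ports
  have hcl : pc8 lm = ((cut G X).filter fun e => v ∈ G.ends e).card := by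
    apply C.pts.card_ports C.hk
    · exact filter_subset _ _
    · intro i
      rw [C.hlm i, mem_filter]
      constructor
      · rintro ⟨h1, h2⟩; exact ⟨h1, C.pts.mem i h1, h2⟩
      · rintro ⟨h1, _, h2⟩; exact ⟨h1, h2⟩
  have hcm : (univ.filter fun e => v ∈ G.ends e ∧ e ∉ cut G X).card = m := by
    have : (univ.filter fun e => v ∈ G.ends e ∧ e ∉ cut G X) = (range m).image n := by
      ext e
      rw [mem_filter, mem_image]
      constructor
      · rintro ⟨_, h1, h2⟩
        obtain ⟨q, hq, h⟩ := C.hns e h1 h2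
        exact ⟨q, mem_range.2 hq, h⟩
      · rintro ⟨q, hq, h⟩
        rw [← h]
        exact ⟨mem_univ _, C.hn q (mem_range.1 hq)⟩
    rw [this, card_image_of_injOn, card_range]
    intro i hi j hj hij
    rw [mem_coe, mem_range] at hi hj
    exact C.hni i hi j hj hij
  have hc4 : (cut G (insert v X)).card = ((cut G X).filter fun e => v ∉ G.ends e).card + m := by
    rw [← hcm, ← card_union_of_disjoint]
    · congr 1
      ext e
      rw [cut_insert C.hv]
      simp only [mem_union, mem_filter, mem_univ, true_and]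
    · rw [disjoint_left]
      intro e h1 h2
      rw [mem_filter] at h1 h2
      exact h2.2.2 h1.1
  have hc5 : ((cut G X).filter fun e => v ∈ G.ends e).card +
      ((cut G X).filter fun e => v ∉ G.ends e).card = (tbl i0).k := by
    rw [card_filter_add_card_filter_not, C.pts.card_cut]
  have hpat : patB r w (tbl i0).k lm = true := by
    unfold patB
    rw [Bool.and_eq_true, ble_iff, ble_iff]
    have e1 : Nat.add (tbl i0).k r = (tbl i0).k + r := rfl
    have e2 : Nat.add w (Nat.mul 2 (pc8 lm)) = w + 2 * pc8 lm := rfl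
    rw [e1, e2]
    omega
  have hsh : lm < Nat.shiftLeft 1 (tbl i0).k := by
    have e : Nat.shiftLeft 1 (tbl i0).k = 1 <<< (tbl i0).k := rfl
    rw [e, Nat.one_shiftLeft]; exact hlt
  have h3 := hes3 lm hsh
  rw [hpat, cond_true, Bool.or_eq_true, C.not_exclB I hodd O.hfs, List.any_eq_true] at h3
  rcases h3 with h3 | ⟨e, he, hel⟩
  · exact absurd h3 (by simp)
  have hel' : e.lm = lm := (beq_iff _ _).1 hel
  have hce := hes2 e he
  obtain ⟨es1, hes1'⟩ := hok e.ti
  unfold chkBT at hes1'
  rw [Bool.and_eq_true] at hes1'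
  have O1 := okB_spec hes1'.1
  unfold chkB at hce
  rw [hel'] at hce
  refine ⟨e.ti, fun i => sr o n (dig e.c i), ?_⟩
  revert hce O1
  generalize tbl e.ti = t1
  obtain ⟨k', par', n', st', fs'⟩ := t1
  intro hce O1
  dsimp only at hce
  simp only [Bool.and_eq_true, List.all_eq_true] at hce
  obtain ⟨g1, g2, g3, g4, g5⟩ := hce
  have P := C.prt hr8 g3
  refine ⟨C.newPts P, ?_, ?_, ?_⟩
  · rw [card_insert_of_notMem C.hv, Nat.odd_add_one, ← I.par]
    revert g2
    cases (tbl i0).par <;> cases par' <;> simp [xorB]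
  · intro Q hQ
    exact C.factB_spec I O.hfs P (g4 Q hQ)
  · intro j hj
    unfold statesB at g5
    rw [allB_iff] at g5
    have := g5 j hj
    simp only at this
    cases hc : Nat.blt (Nat.shiftRight
        (Nat.land (Nat.shiftRight e.ws (Nat.mul 64 j)) 18446744073709551615) 48) (tbl i0).n
    · rw [hc, cond_false] at this; exact absurd this (by simp)
    · rw [hc, cond_true] at this
      rw [blt_iff] at hc
      obtain ⟨M, hM, hMo⟩ := I.sts _ hc
      exact C.stateOK_spec P hM hMo (O1.hc j hj) this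

end Pool.Agent.TH222.RG
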